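import Pool.Agent.V11302.FM.Rat

/-!
# Inner twists and the field of coefficients, detected at a sparse set of primes

Let `f` be any function. There is a sequence `T` of prime numbers, growing faster than prescribed by `f`,
such that for every number field `K`, every prime number `p`, every finite extension `E` of `ℚ_p`, every
subfield `F` of `E` over which `E` is Galois and every continuous representation `ρ : G_K → GL_n(E)` which is
unramified outside a finite set of primes and absolutely irreducible on every open subgroup (for example the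
`λ`-adic representation of a Hilbert newform without complex multiplication) the following holds.
Assume that for almost every `i` and every Frobenius element `σ` of `G_K` above `T i` the characteristic
polynomial of some power `ρ(σ) ^ m`, `m ≥ 1` (which may depend on `σ`), has coefficients in `F` (for example:
the squares of the Hecke eigenvalues at the places above `T i` are in `F`, if the central character is trivial).
Then

* every automorphism `a` of `E` over `F` is an inner twist of `ρ`: `ρ(σ) = ε(σ) Q a(ρ(σ)) Q⁻¹` for a character `ε`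
  of finite order;
* the characteristic polynomials of the elements of an open subgroup have coefficients in `F`, and for ONE
  exponent `m ≥ 1` the characteristic polynomials of `ρ(σ) ^ m` have coefficients in `F` for ALL `σ` in `G_K`;
* if the determinants of `ρ` are in `F` then `(tr ρ(σ)) ^ n` is in `F` for all `σ` in `G_K` (for example: the
  squares of ALL Hecke eigenvalues are in `F`).

Nothing is assumed at the places above `p`. The set `T` is very thin: there is a totally real field `L` of
infinite degree, Galois and unramified at all finite places over a real quadratic field, in which all the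
primes `T i` split completely.
-/

set_option autoImplicit false

namespace Pool.Agent.Results.MP_6cbef8_nt.RationalAtSparsePrimes

open NumberField IntermediateField Module

attribute [local instance 10] DivisionRing.toRatAlgebra

/-- the absolute Galois group of `ℚ` -/
abbrev GQ : Type := Gal(AlgebraicClosure ℚ/ℚ)

/-- the ring of all algebraic integers -/
abbrev ZBar : Type := 𝓞 (AlgebraicClosure ℚ)

/-- `τ` lies in the inertia group at the maximal ideal `P` of the ring of all algebraic integers -/
def Inertia (P : Ideal ZBar) (τ : GQ) : Prop := ∀ x : ZBar, τ • x - x ∈ P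

/-- `σ` is a (geometric) Frobenius element at the maximal ideal `P` above the prime number `q`: it induces
the inverse of `x ↦ x ^ q` on the residue field -/
def Frobenius (q : ℕ) (P : Ideal ZBar) (σ : GQ) : Prop := ∀ x : ZBar, x - (σ • x) ^ q ∈ P

/-- `L` is a totally real Galois extension of infinite degree of the real quadratic field `k`, unramified at
all finite places, and a union of finite extensions of `ℚ` whose degrees are powers of two -/
structure UnramifiedTower (k L : IntermediateField ℚ (AlgebraicClosure ℚ)) : Prop where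
  quadratic : finrank ℚ k = 2 ∧ ∃ s ∈ k,
    s ^ 2 = ((17 * 41 * 73 * 89 * 97 * 113 * 137 * 193 * 233 * 241 : ℕ) : AlgebraicClosure ℚ)
  le : k ≤ L
  infinite : ¬ FiniteDimensional ℚ L
  galois : ∀ σ : GQ, (∀ x ∈ k, σ x = x) → ∀ y ∈ L, σ y ∈ L
  unramified : ∀ q : ℕ, q.Prime → ∀ P : Ideal ZBar, P.IsMaximal → (q : ZBar) ∈ P → ∀ τ : GQ,
    (∀ x ∈ k, τ x = x) → Inertia P τ → ∀ y ∈ L, τ y = y
  real : ∀ (φ : L →+* ℂ) (y : L), (φ y).im = 0
  two : ∀ y ∈ L, ∃ m : ℕ, finrank ℚ ℚ⟮y⟯ = 2 ^ m

/-- the prime number `q` is unramified and splits completely in `L`: all inertia elements and all Frobenius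
elements above `q` fix `L` -/
def SplitsCompletely (q : ℕ) (L : IntermediateField ℚ (AlgebraicClosure ℚ)) : Prop :=
  ∀ P : Ideal ZBar, P.IsMaximal → (q : ZBar) ∈ P → ∀ σ : GQ, Inertia P σ ∨ Frobenius q P σ →
    ∀ y ∈ L, σ y = y

section rep

variable {K : IntermediateField ℚ (AlgebraicClosure ℚ)} {p : ℕ} [Fact p.Prime]
  {E : IntermediateField ℚ_[p] (PadicAlgCl p)} {n : ℕ}

/-- `ρ` is continuous and unramified outside a finite set of primes -/
def AlmostUnramified (ρ : K.fixingSubgroup →* GL (Fin n) E) : Prop :=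
  Continuous ρ ∧
  ∃ S : Finset ℕ, ∀ q : ℕ, q.Prime → q ∉ S → ∀ P : Ideal ZBar, P.IsMaximal → (q : ZBar) ∈ P →
    ∀ τ : K.fixingSubgroup, Inertia P τ → ρ τ = 1

/-- `ρ` is absolutely irreducible on every open subgroup: the matrices of the elements of an open subgroup
span the space of all matrices (theorem of Burnside) -/
def StronglyIrreducible (ρ : K.fixingSubgroup →* GL (Fin n) E) : Prop :=
  ∀ V : Subgroup GQ, IsOpen (V : Set GQ) →
    Submodule.span E {X | ∃ σ : K.fixingSubgroup, (σ : GQ) ∈ V ∧
      X = (ρ σ : Matrix (Fin n) (Fin n) E)} = ⊤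

/-- for all Frobenius elements `σ` of `G_K` above almost all `T i` there is an exponent `m ≥ 1` such that the
characteristic polynomial of `ρ(σ) ^ m` has coefficients in `F` -/
def PowersRational (T : ℕ → ℕ) (ρ : K.fixingSubgroup →* GL (Fin n) E) (F : IntermediateField ℚ_[p] E) :
    Prop :=
  ∃ i₀ : ℕ, ∀ i ≥ i₀, ∀ P : Ideal ZBar, P.IsMaximal → (T i : ZBar) ∈ P →
    ∀ σ : K.fixingSubgroup, Frobenius (T i) P σ → ∃ m : ℕ, m ≠ 0 ∧
      ∀ j, ((ρ σ : Matrix (Fin n) (Fin n) E) ^ m).charpoly.coeff j ∈ F

/-- the automorphism `a` of the coefficients is an inner twist of `ρ`: the image of `ρ` under `a` is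
isomorphic to a twist of `ρ` by a character which is trivial on an open subgroup -/
def IsInnerTwist (ρ : K.fixingSubgroup →* GL (Fin n) E) {F : IntermediateField ℚ_[p] E}
    (a : E ≃ₐ[F] E) : Prop :=
  ∃ (Q : GL (Fin n) E) (ε : K.fixingSubgroup →* (E : Type)ˣ),
    (∃ V : Subgroup GQ, IsOpen (V : Set GQ) ∧ ∀ σ : K.fixingSubgroup, (σ : GQ) ∈ V → ε σ = 1) ∧
    ∀ σ, (ρ σ : Matrix (Fin n) (Fin n) E) =
      (ε σ : E) • ((Q : Matrix (Fin n) (Fin n) E) *
        (ρ σ : Matrix (Fin n) (Fin n) E).map a *
        ((Q⁻¹ : GL (Fin n) E) : Matrix (Fin n) (Fin n) E))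

end rep

/-- **Main result.** -/
theorem result (f : ℕ → ℕ) :
    ∃ (T : ℕ → ℕ) (k L : IntermediateField ℚ (AlgebraicClosure ℚ)),
      (∀ i, (T i).Prime ∧ T i < T (i + 1) ∧ f (T i) < T (i + 1)) ∧
      UnramifiedTower k L ∧ (∀ i, SplitsCompletely (T i) L) ∧
      ∀ (K : IntermediateField ℚ (AlgebraicClosure ℚ)), FiniteDimensional ℚ K →
        ∀ (p : ℕ) [Fact p.Prime] (E : IntermediateField ℚ_[p] (PadicAlgCl p)),
        FiniteDimensional ℚ_[p] E → ∀ n : ℕ, 0 < n → ∀ (ρ : K.fixingSubgroup →* GL (Fin n) E),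
          AlmostUnramified ρ → StronglyIrreducible ρ →
          ∀ (F : IntermediateField ℚ_[p] E), IsGalois F E → PowersRational T ρ F →
          (∀ a : E ≃ₐ[F] E, IsInnerTwist ρ a) ∧
          (∃ V : Subgroup GQ, IsOpen (V : Set GQ) ∧ V ≤ K.fixingSubgroup ∧
            ∀ σ : K.fixingSubgroup, (σ : GQ) ∈ V →
              ∀ j, (ρ σ : Matrix (Fin n) (Fin n) E).charpoly.coeff j ∈ F) ∧
          (∃ m : ℕ, m ≠ 0 ∧ ∀ σ : K.fixingSubgroup,
            ∀ j, ((ρ σ : Matrix (Fin n) (Fin n) E) ^ m).charpoly.coeff j ∈ F) ∧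
          ((∀ σ, (ρ σ : Matrix (Fin n) (Fin n) E).det ∈ F) →
            ∀ σ, (ρ σ : Matrix (Fin n) (Fin n) E).trace ^ n ∈ F) := by
  obtain ⟨T, k, L, hT1, hT2, htow, hrep⟩ := Pool.Agent.V11302.FM.mainRat f
  refine ⟨T, k, L, fun i => ⟨hT1 i, ?_, ?_⟩, ⟨⟨htow.rank, htow.sqrt⟩, htow.le, htow.inf, htow.galois,
    htow.unr, htow.real, htow.two⟩, ?_, ?_⟩
  · have := hT2 i
    omega
  · have := hT2 i
    have := (hT1 i).pos
    omega
  · intro i P hP hTP σ hσ
    rcases hσ with hσ | hσ
    · exact htow.unrT i P hP hTP σ hσ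
    · exact htow.split i P hP hTP σ hσ
  · intro K hK p hp E hE n hn ρ hρ hs F hF hag
    obtain ⟨hρc, S, hS⟩ := hρ
    obtain ⟨i0, hi0⟩ := hag
    obtain ⟨V, h1, h2, h3, h4, h5, h6⟩ := hrep K.fixingSubgroup K.fixingSubgroup_isOpen p E hE n ρ hρc
      ⟨S, fun q hq hqS P hP hqP τ hτ hτP => hS q hq hqS P hP hqP ⟨τ, hτ⟩ hτP⟩ hs hn F
      ⟨i0, fun i hi P hP hTP σ h hfr => hi0 i hi P hP hTP ⟨σ, h⟩ hfr⟩
    refine ⟨fun a => ?_, ⟨V, h1, h3, h5⟩, ?_, h6⟩
    · obtain ⟨Q, ε, h7, h8⟩ := h4 a
      exact ⟨Q, ε, ⟨V, h1, h7⟩, h8⟩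
    · have hfi : V.FiniteIndex := Pool.Agent.Y802.TS.finiteIndex_of_open h1
      refine ⟨V.index, hfi.index_ne_zero, fun σ j => ?_⟩
      have h9 : ((σ ^ V.index : K.fixingSubgroup) : GQ) ∈ V := by
        rw [SubmonoidClass.coe_pow]
        exact Subgroup.pow_index_mem V _
      have h10 := h5 _ h9 j
      rw [map_pow] at h10
      exact h10


end Pool.Agent.Results.MP_6cbef8_nt.RationalAtSparsePrimes
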